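import Mathlib
import Pool.Agent.Helper183_CM.Final

/-!
# Galois orbits of special points whose coordinates have CM by different fields

Let `Y_1, ..., Y_n` be modular curves with models over a number field `F`, and let `x_i = (x_{i1}, ..., x_{in})` be special
points of `X = Y_1 × ... × Y_n` of which only finitely many lie in each of the special subvarieties `{y_j = z}`, `z` a CM
point of `Y_j`. We show the convergence `μ_{x_i} → m_X` of Q1 whenever, for all large `i`, the fields of complex
multiplication `K_{i1}, ..., K_{in}` of the coordinates are pairwise different. There is no other condition: the
discriminants need not be fundamental and may grow at any relative rates, the fields `K_{ij}` may be dependent (for instance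
`K_{i4} ⊂ K_{i1} K_{i2} K_{i3}`), they may be contained in `F`, and `n`, `F` and the level structures are arbitrary.

More generally (part I of `result`) the coordinates may be grouped such that coordinates in different groups have
different fields: a factor `Y_j` below may itself be a product of modular curves and `P_j` the set of its points all of
whose coordinates have CM by the same field. If each group of coordinates is equidistributed along the orbits of all large
subgroups of the Galois group (`Space.Along`), then the orbits of the points `x_i` are equidistributed in the product of all
factors. So different CM fields are always independent, and what remains open in Q1 is the case of points all of whose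
coordinates have CM by one field.

What is used of the CM points is contained in the structure `GalFacts`; all of it is known:
* the main theorem of complex multiplication: for a CM point `x` of a modular curve, by the order of discriminant
  `- disc x` in `K x`, let `R x` be the ring class field of this order, i.e. the field generated over `K x` by the
  `j`-invariant of `x`. `R x` is abelian over `K x`, Galois over `ℚ`, and the automorphisms which are not trivial on `K x` act
  on `Gal (R x / K x)` by inversion (`dihedral`). An automorphism over `F (K x)` which fixes `x` fixes `R x` (`moduli`), and the
  conjugates of `x` over `F` are defined over an extension of `F (R x)` of bounded degree (`level`; the degree of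
  `Y_j → SL_2(ℤ)\ℍ` is finite, and `x` is defined over an abelian extension of `F (K x)`);
* Siegel's theorem `h (O) ≥ c(ε) |disc|^{1/2 - ε}` for the class number of an order (`siegel`);
* genus theory: the number of classes `c` with `c² = 1` is at most `C(ε) |disc|^ε` (`genus`);
* there are only finitely many CM points of bounded discriminant (`few`).

`Space.Sparse` is the theorem of Duke, Iwaniec, Zhang, Harcos, Michel, Venkatesh for one modular curve: for some `δ > 0` the
orbits of CM points `x` under subgroups of the Galois group are equidistributed if they have at least
`|disc x|^{1/2 - δ}` elements and `|disc x| → ∞`.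

From Mathlib: `AlgebraicClosure ℚ`; `IntermediateField`; `fixingSubgroup`, the group of the automorphisms which are trivial on
a field; `relIndex`; `Measure.pi`, the product measure; `HasCompactSupport`.

Definitions of the files `Helper183_CM`: `Dihedral U N`: `U` has index two, `N` is a normal subgroup of finite index
contained in `U`, `U / N` is abelian, and the elements outside `U` act on it by inversion; `orbMean Γ x f` is the mean
of `f` over the orbit of `x` under `Γ`; `subMean`, `orbSize`: the mean over the orbit under a subgroup and its size;
`twoTors U N` is the number of the classes `c` of `U / N` with `c² = 1`; `fixer GF x` is the group of the elements of `GF`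
which fix all the conjugates `σ x`, `σ` in `GF`, and `levelDeg` is its index in the group of `F R`; `SparseCM`: see `Space.Sparse`
above; `SparseAlong` is the equidistribution along a sequence `x i` for all orbits of
conjugates of `x i` under subgroups with at least `disc (x i)^{1/2 - δ}` elements.
-/

set_option autoImplicit false

open Filter Topology MeasureTheory MulAction

namespace Pool.Agent.Results.MP_ad7a55_nt.DistinctCMFields

open Pool.Agent.Helper183_CM

/-- the field of the algebraic numbers -/
abbrev Qbar : Type := AlgebraicClosure ℚ

/-- the absolute Galois group of `ℚ` -/
def GQ : Type := Qbar ≃ₐ[ℚ] Qbar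

noncomputable instance : Group GQ := inferInstanceAs (Group (Qbar ≃ₐ[ℚ] Qbar))

/-- the subfields of `Qbar` -/
abbrev Fld : Type := IntermediateField ℚ Qbar

/-- the Galois group of `Qbar` over `E` -/
noncomputable def grp (E : Fld) : Subgroup GQ := IntermediateField.fixingSubgroup E

/-- `E` is a number field -/
def IsFinite (E : Fld) : Prop := FiniteDimensional ℚ E

theorem galois_Qbar : IsGalois ℚ Qbar := by
  have h : (DivisionRing.toRatAlgebra : Algebra ℚ (AlgebraicClosure ℚ)) =
      AlgebraicClosure.instAlgebra ℚ := Subsingleton.elim _ _
  have h2 : @IsGalois ℚ _ (AlgebraicClosure ℚ) _ (AlgebraicClosure.instAlgebra ℚ) :=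
    @IsAlgClosure.isGalois ℚ (AlgebraicClosure ℚ) _ _ (AlgebraicClosure.instAlgebra ℚ) _ _
  rw [← h] at h2
  exact h2

theorem grp_injective : Function.Injective grp := by
  intro E E' h
  have hgal := galois_Qbar
  have h0 : IntermediateField.fixingSubgroup E = IntermediateField.fixingSubgroup E' := h
  have h1 := congrArg IntermediateField.fixedField h0
  rwa [InfiniteGalois.fixedField_fixingSubgroup, InfiniteGalois.fixedField_fixingSubgroup] at h1

theorem index_grp {E : Fld} (h : IsFinite E) : (grp E).index ≠ 0 := by
  have hgal := galois_Qbar
  have h1 : Module.finrank ℚ E = (grp E).index :=
    IntermediateField.finrank_eq_fixingSubgroup_index _ E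
  have h2 : FiniteDimensional ℚ E := h
  rw [← h1]
  exact Module.finrank_pos.ne'

/-- A space `Y` with a probability measure `m` and a set `P` of CM points of `Y` with the action of the
Galois group of `F`; `- disc x` is the discriminant of the point `x`, `K x` is its imaginary quadratic
field, `R x` its ring class field. -/
structure Space (F : Fld) where
  Y : Type
  P : Type
  [top : TopologicalSpace Y]
  [hausdorff : T2Space Y]
  [compact : LocallyCompactSpace Y]
  [countable : SecondCountableTopology Y]
  [meas : MeasurableSpace Y]
  [borel : BorelSpace Y]
  m : Measure Y
  [prob : IsProbabilityMeasure m]
  [act : MulAction (grp F) P]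
  pt : P → Y
  disc : P → ℕ
  K : P → Fld
  R : P → Fld

attribute [instance] Space.top Space.hausdorff Space.compact Space.countable Space.meas
  Space.borel Space.prob Space.act

variable {F : Fld}

/-- The known facts about the CM points. See the head of this file and `GalFacts`. -/
def Space.Facts (S : Space F) : Prop :=
  GalFacts (grp F) S.disc (fun x => grp (S.K x)) (fun x => grp (S.R x))

/-- the equidistribution of the large orbits of CM points under subgroups of the Galois group -/
def Space.Sparse (S : Space F) : Prop := SparseCM (grp F) S.m S.pt S.disc

/-- the same for the conjugates of the points of one sequence -/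
def Space.Along (S : Space F) (x : ℕ → S.P) : Prop := SparseAlong (grp F) S.m S.pt S.disc x

/-- the Galois orbits over `F` of the points `x i` are equidistributed in the product of the spaces -/
def Equi {n : ℕ} (S : Fin n → Space F) (x : ℕ → ∀ j, (S j).P) : Prop :=
  ∀ f : (∀ j, (S j).Y) → ℝ, Continuous f → HasCompactSupport f →
    Tendsto (fun i => orbMean (grp F) (x i) fun z => f fun j => (S j).pt (z j)) atTop
      (𝓝 (∫ y, f y ∂(Measure.pi fun j => (S j).m)))

/-- Let `F` be a number field, `S_j = (Y_j, m_j, P_j, ...)` spaces with probability measures and CM points, `j < n`, with the
known facts `Space.Facts`. Let `x_i` be points such that for each `j` each `z ∈ P_j` is the `j`-th coordinate of finitely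
many `x_i` only, and the fields `K (x_{ij})`, `j < n`, are pairwise different for large `i`.

I. If for each `j` the sequence `(x_{ij})_i` is equidistributed in the sense of `Space.Along` then the Galois orbits of `x_i` are
equidistributed in the product of the `Y_j`.

II. This is the case if the `S_j` satisfy `Space.Sparse`, i.e. for all modular curves `Y_j`. -/
theorem result (F : Fld) (hF : IsFinite F) (n : ℕ) (S : Fin n → Space F)
    (h : ∀ j, (S j).Facts) (x : ℕ → ∀ j, (S j).P) (hx : ∀ j z, {i | x i j = z}.Finite)
    (hK : ∀ᶠ i in atTop, Function.Injective fun j => (S j).K (x i j)) :
    ((∀ j, (S j).Along fun i => x i j) → Equi S x) ∧ ((∀ j, (S j).Sparse) → Equi S x) := by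
  have hd : ∀ᶠ i in atTop, Function.Injective fun j => grp ((S j).K (x i j)) := by
    filter_upwards [hK] with i hi
    exact grp_injective.comp hi
  have part1 : (∀ j, (S j).Along fun i => x i j) → Equi S x := fun hs f hf hc =>
    equidistribution (index_grp hF) h hs hx hd hf hc
  refine ⟨part1, fun hs => part1 fun j => ?_⟩
  obtain ⟨δ, hδ, h1⟩ := hs j
  refine ⟨δ, hδ, fun f hf hc ε hε => ?_⟩
  obtain ⟨D, hD⟩ := h1 f hf hc ε hε
  filter_upwards [(tendsto_disc (h j) (hx j)).eventually_ge_atTop D] with i hi y hy H hH
  have ey : (S j).disc y = (S j).disc (x i j) := orbit_inv (h j).disc_smul hy
  exact hD y (by rw [ey]; exact hi) H (by rw [ey]; exact hH)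

end Pool.Agent.Results.MP_ad7a55_nt.DistinctCMFields
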